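import Pool.Agent.helper53.ORT.Spec

/-!
# Project ort (MP_561ff4_al), row PPB: a singular vector `u` orthogonal to `y u`
-/

set_option autoImplicit false

namespace Pool.Agent.ORT

open Module Pool.Agent.GS

noncomputable section

theorem PPB_nondeg {F V : Type} [Field F] [AddCommGroup V] [Module F V]
    {B : LinearMap.BilinForm F V} (hB : Sym B) : B.Nondegenerate := by
  refine ⟨fun x hx => hB.nd x hx, fun x hx => hB.nd x fun y => ?_⟩
  rw [hB.symm]
  exact hx y

theorem PPB_refl {F V : Type} [Field F] [AddCommGroup V] [Module F V]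
    {B : LinearMap.BilinForm F V} (hB : Sym B) : B.IsRefl := by
  intro x y h
  rw [hB.symm]
  exact h

/-- Case (1): `y (y u)` is not in the plane. -/
theorem PPB_one (sgo : SGO_stmt) (sgu : SGU_stmt) {F V : Type} [Field F] [AddCommGroup V]
    [Module F V] [FiniteDimensional F V] (B : LinearMap.BilinForm F V) (hF : ringChar F ≠ 2)
    (hB : Sym B) (hn : 5 ≤ finrank F V) (y : Equiv.Perm V) (ν : F)
    (hy : Sim B y (RingEquiv.refl F) ν) (u : V) (h1 : B u u = 0) (h2 : B u (y u) = 0)
    (h3 : ∀ c : F, y u ≠ c • u) (h4 : ∀ a b : F, y (y u) ≠ a • u + b • y u) :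
    ∃ z ∈ Om B, Gn B y 2 z ∧ z ≠ 1 ∧ UP z := by
  have h20 : (2 : F) ≠ 0 := Ring.two_ne_zero hF
  have hν := hy.ne
  have hw : B (y u) (y u) = 0 := by rw [hy.form, h1, map_zero, mul_zero]
  have hwu : B (y u) u = 0 := by rw [hB.symm, h2]
  have hd : B (y u) (ν⁻¹ • y (y u)) = 0 := by
    rw [map_smul, hy.form, h2, map_zero, mul_zero, smul_zero]
  have hw0 : y u ≠ 0 := by
    intro h
    exact h3 0 (by rw [h, zero_smul])
  have ht : sg B u (y u) ∈ Om B := sgo B hF hB (by omega) u (y u) h1 h2
  have hswap : sg B u (-(y u)) = sg B (y u) u := by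
    ext x
    rw [sg_apply hB h20 h1 (by rw [map_neg, h2, neg_zero]), sg_apply hB h20 hw hwu]
    simp only [map_neg, LinearMap.neg_apply, hw, h1, neg_zero, zero_div, zero_mul, zero_smul,
      sub_zero, smul_neg, neg_smul]
    abel
  have hz : y * sg B u (y u) * y⁻¹ * (sg B u (y u))⁻¹ = sg B (y u) (ν⁻¹ • y (y u) + u) := by
    rw [sg_conj hB h20 hy h1 h2, sg_inv hB h20 h1 h2, hswap, sg_add hB h20 hw hd hwu]
  have hd' : B (y u) (ν⁻¹ • y (y u) + u) = 0 := by rw [map_add, hd, hwu, add_zero]
  obtain ⟨g1, g2⟩ := sgu B hF hB (y u) (ν⁻¹ • y (y u) + u) hw hd' hw0 (by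
    intro c hc
    apply h4 (-ν) (ν * c)
    have e1 : ν • (ν⁻¹ • y (y u) + u) = ν • (c • y u) := by rw [hc]
    rw [smul_add, smul_smul, mul_inv_cancel₀ hν, one_smul, smul_smul] at e1
    rw [neg_smul, ← e1]
    abel)
  refine ⟨sg B (y u) (ν⁻¹ • y (y u) + u), sgo B hF hB (by omega) _ _ hw hd', ?_, g1, g2⟩
  rw [← hz]
  exact Gn.comm ht

/-- Case (2): the plane is invariant. -/
theorem PPB_two (sgo : SGO_stmt) {F V : Type} [Field F] [AddCommGroup V]
    [Module F V] [FiniteDimensional F V] (B : LinearMap.BilinForm F V) (hF : ringChar F ≠ 2)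
    (hB : Sym B) (hn : 5 ≤ finrank F V) (y : Equiv.Perm V) (ν : F)
    (hy : Sim B y (RingEquiv.refl F) ν) (u : V) (h1 : B u u = 0) (h2 : B u (y u) = 0)
    (h3 : ∀ c : F, y u ≠ c • u) (a b : F) (h4 : y (y u) = a • u + b • y u) :
    ∃ z ∈ Om B, Gn B y 2 z ∧ z ≠ 1 ∧ UP z := by
  have h20 : (2 : F) ≠ 0 := Ring.two_ne_zero hF
  have hν := hy.ne
  have hlin : ∀ (c : F) (v : V), y (c • v) = c • y v := fun c v => hy.smul c v
  have hform : ∀ v w, B (y v) (y w) = ν * B v w := fun v w => hy.form v w
  have hw : B (y u) (y u) = 0 := by rw [hform, h1, mul_zero]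
  have hwu : B (y u) u = 0 := by rw [hB.symm, h2]
  have hu0 : u ≠ 0 := by
    rintro rfl
    have : y (0 : V) = 0 := by
      have := hlin 0 0
      rw [zero_smul, zero_smul] at this
      exact this
    exact h3 0 (by rw [this, smul_zero])
  have ha : a ≠ 0 := by
    rintro rfl
    rw [zero_smul, zero_add, ← hlin] at h4
    exact h3 b (y.injective h4)
  -- the plane
  set L : Submodule F V := Submodule.span F {u, y u} with hL
  have hLfin : finrank F L ≤ 2 := by
    classical
    have h5 := finrank_span_finset_le_card (R := F) ({u, y u} : Finset V)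
    rw [Finset.coe_pair] at h5
    exact h5.trans Finset.card_le_two
  have hmem : ∀ x, x ∈ B.orthogonal L ↔ B x u = 0 ∧ B x (y u) = 0 := by
    intro x
    rw [LinearMap.BilinForm.mem_orthogonal_iff]
    constructor
    · intro h
      refine ⟨?_, ?_⟩
      · rw [hB.symm]
        exact h u (Submodule.subset_span (by left; rfl))
      · rw [hB.symm]
        exact h (y u) (Submodule.subset_span (by right; rfl))
    · rintro ⟨g1, g2⟩ n hn'
      obtain ⟨α, β, rfl⟩ := Submodule.mem_span_pair.1 hn'
      change B (α • u + β • y u) x = 0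
      rw [map_add, LinearMap.add_apply, map_smul, map_smul, LinearMap.smul_apply,
        LinearMap.smul_apply, hB.symm u x, hB.symm (y u) x, g1, g2, smul_zero, smul_zero, add_zero]
  have hnd := PPB_nondeg hB
  have hrefl := PPB_refl hB
  have hfin : finrank F (B.orthogonal L) = finrank F V - finrank F L :=
    LinearMap.BilinForm.finrank_orthogonal hnd L
  -- `d`
  obtain ⟨d, hd1, hd2⟩ : ∃ d ∈ B.orthogonal L, d ∉ L := by
    by_contra hcon
    push Not at hcon
    have h6 : finrank F (B.orthogonal L) ≤ finrank F L := Submodule.finrank_mono hcon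
    omega
  obtain ⟨hdu, hdw⟩ := (hmem d).1 hd1
  have hud : B u d = 0 := by rw [hB.symm, hdu]
  have hwd : B (y u) d = 0 := by rw [hB.symm, hdw]
  set d' : V := ν⁻¹ • y d with hd'def
  have hwd' : B (y u) d' = 0 := by
    rw [hd'def, map_smul, hform, hud, mul_zero, smul_zero]
  have hud' : B u d' = 0 := by
    have e1 : u = y (a⁻¹ • (y u - b • u)) := by
      have e2 : y (y u - b • u) = a • u := by
        have e3 : y (y u - b • u) = y (y u) - y (b • u) := by
          rw [eq_sub_iff_add_eq, ← hy.add, sub_add_cancel]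
        rw [e3, hlin, h4]
        abel
      rw [hlin, e2, smul_smul, inv_mul_cancel₀ ha, one_smul]
    rw [hd'def, map_smul]
    conv_lhs => rw [e1]
    rw [hform, map_smul, LinearMap.smul_apply, map_sub, LinearMap.sub_apply, map_smul,
      LinearMap.smul_apply, hwd, hud, smul_zero, sub_zero, smul_zero, mul_zero, smul_zero]
  have ht : sg B u d ∈ Om B := sgo B hF hB (by omega) u d h1 hud
  have hz : y * sg B u d * y⁻¹ * (sg B u d)⁻¹ = sg B (y u) d' * sg B u (-d) := by
    rw [sg_conj hB h20 hy h1 hud, sg_inv hB h20 h1 hud]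
  have hund : B u (-d) = 0 := by rw [map_neg, hud, neg_zero]
  set z : Equiv.Perm V := sg B (y u) d' * sg B u (-d) with hzdef
  have hzOm : z ∈ Om B := by
    refine (Om B).mul_mem (sgo B hF hB (by omega) _ _ hw hwd') (sgo B hF hB (by omega) _ _ h1 hund)
  have hzapp : ∀ x, z x = x + (-(B x u) • d + (B x d - B d d / 2 * B x u) • u +
      B x (y u) • d' + (-(B x d') + B x u * B d d' - B d' d' / 2 * B x (y u)) • y u) := by
    intro x
    rw [hzdef, Equiv.Perm.mul_apply, sg_apply hB h20 h1 hund, sg_apply hB h20 hw hwd']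
    simp only [map_neg, LinearMap.neg_apply, map_sub, map_add, LinearMap.sub_apply,
      LinearMap.add_apply, map_smul, LinearMap.smul_apply, smul_eq_mul, hdw, h2, hud', neg_neg]
    match_scalars <;> field_simp <;> ring
  have hdu0 : B d u = 0 := hdu
  have hdd'u : B d' u = 0 := by rw [hB.symm, hud']
  have hdd'w : B d' (y u) = 0 := by rw [hB.symm, hwd']
  refine ⟨z, hzOm, by rw [← hz]; exact Gn.comm ht, ?_, ?_⟩
  · -- `z ≠ 1`
    intro hz1
    have key : ∀ x ∈ B.orthogonal L, B x d = 0 := by
      intro x hx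
      obtain ⟨g1, g2⟩ := (hmem x).1 hx
      have e := hzapp x
      rw [hz1, Equiv.Perm.one_apply, g1, g2] at e
      simp only [neg_zero, zero_smul, mul_zero, sub_zero, zero_add, add_zero, zero_mul] at e
      have e' : B x d • u + -(B x d') • y u = 0 := by
        have := e.symm
        rw [add_eq_left] at this
        exact this
      by_contra hne
      by_cases hc : B x d' = 0
      · rw [hc, neg_zero, zero_smul, add_zero] at e'
        rcases smul_eq_zero.1 e' with h | h
        · exact hne h
        · exact hu0 h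
      · apply h3 ((B x d')⁻¹ * B x d)
        have e2 : B x d' • y u = B x d • u := by
          rw [neg_smul, ← sub_eq_add_neg, sub_eq_zero] at e'
          exact e'.symm
        rw [mul_smul, ← e2, smul_smul, inv_mul_cancel₀ hc, one_smul]
    have hdd : d ∈ B.orthogonal (B.orthogonal L) := by
      rw [LinearMap.BilinForm.mem_orthogonal_iff]
      intro x hx
      exact key x hx
    rw [LinearMap.BilinForm.orthogonal_orthogonal hnd hrefl] at hdd
    exact hd2 hdd
  · -- `UP z`
    intro v
    obtain ⟨m, hm⟩ : ∃ m : V, m = -(B v u) • d + (B v d - B d d / 2 * B v u) • u +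
      B v (y u) • d' + (-(B v d') + B v u * B d d' - B d' d' / 2 * B v (y u)) • y u := ⟨_, rfl⟩
    have hzv : z v = v + m := by rw [hm]; exact hzapp v
    have hmu : B m u = 0 := by
      rw [hm]
      simp only [map_add, LinearMap.add_apply, map_smul, LinearMap.smul_apply, hdu, h1, hdd'u, hwu,
        smul_zero, add_zero]
    have hmw : B m (y u) = 0 := by
      rw [hm]
      simp only [map_add, LinearMap.add_apply, map_smul, LinearMap.smul_apply, hdw, h2, hdd'w, hw,
        smul_zero, add_zero]
    have hzadd : ∀ p q, z (p + q) = z p + z q := ((Om_le B hzOm).1).1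
    have hzm : z m = m + (B m d • u + -(B m d') • y u) := by
      rw [hzapp m, hmu, hmw]
      simp only [neg_zero, zero_smul, mul_zero, sub_zero, zero_add, add_zero, zero_mul]
    obtain ⟨l, hl⟩ : ∃ l : V, l = B m d • u + -(B m d') • y u := ⟨_, rfl⟩
    rw [← hl] at hzm
    have hlu : B l u = 0 := by
      rw [hl]
      simp only [map_add, LinearMap.add_apply, map_smul, LinearMap.smul_apply, h1, hwu,
        smul_zero, add_zero]
    have hlw : B l (y u) = 0 := by
      rw [hl]
      simp only [map_add, LinearMap.add_apply, map_smul, LinearMap.smul_apply, h2, hw,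
        smul_zero, add_zero]
    have hld : B l d = 0 := by
      rw [hl]
      simp only [map_add, LinearMap.add_apply, map_smul, LinearMap.smul_apply, hud, hwd,
        smul_zero, add_zero]
    have hld' : B l d' = 0 := by
      rw [hl]
      simp only [map_add, LinearMap.add_apply, map_smul, LinearMap.smul_apply, hud', hwd',
        smul_zero, add_zero]
    have hzl : z l = l := by
      rw [hzapp l, hlu, hlw, hld, hld']
      simp only [neg_zero, zero_smul, mul_zero, sub_zero, add_zero, zero_mul]
    have z2 : z (z v) = v + m + (m + l) := by rw [hzv, hzadd, hzm, hzv]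
    have z3 : z (z (z v)) = v + m + (m + l) + (m + l + l) := by
      rw [z2, hzadd, hzadd, hzadd, hzv, hzm, hzl]
    rw [z3, z2, hzv]
    abel

theorem PPB (sgo : SGO_stmt) (sgu : SGU_stmt) : PPB_stmt := by
  intro F V _ _ _ _ B hF hB hn y ν hy u h1 h2 h3
  by_cases h4 : ∀ a b : F, y (y u) ≠ a • u + b • y u
  · exact PPB_one sgo sgu B hF hB hn y ν hy u h1 h2 h3 h4
  · push Not at h4
    obtain ⟨a, b, h4⟩ := h4
    exact PPB_two sgo B hF hB hn y ν hy u h1 h2 h3 a b h4

end

end Pool.Agent.ORT
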